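import Pool.Agent.H295R3.W.StmtsB

/-! Task Fin of the project H295-W2: final numerics (helper265). -/

set_option autoImplicit false

open Finset Complex

namespace Pool.Agent.H265R3.W

open Pool.Agent.H295R3.W

theorem nle (z : ℂ) (r : ℝ) (hr : 0 ≤ r) (h : z.re ^ 2 + z.im ^ 2 ≤ r ^ 2) : ‖z‖ ≤ r := by
  have h1 : ‖z‖ ^ 2 = z.re ^ 2 + z.im ^ 2 := by
    rw [Complex.sq_norm, Complex.normSq_apply]; ring
  exact abs_le_of_sq_le_sq' (by rw [h1]; exact h) hr |>.2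

theorem nge (z : ℂ) (r : ℝ) (h : r ^ 2 ≤ z.re ^ 2 + z.im ^ 2) : r ≤ ‖z‖ := by
  have h1 : ‖z‖ ^ 2 = z.re ^ 2 + z.im ^ 2 := by
    rw [Complex.sq_norm, Complex.normSq_apply]; ring
  rw [← h1] at h
  exact le_trans (le_abs_self r) (abs_le_of_sq_le_sq h (norm_nonneg z))

theorem ck_bd (D Z T G0 Z0 T0 c0 : ℂ) (eD eZ eT r cc zu tu zl tl e : ℝ)
    (h1 : ‖D - G0‖ ≤ eD) (h2 : ‖Z - Z0‖ ≤ eZ) (h3 : ‖T - T0‖ ≤ eT)
    (h4 : ‖G0 - c0 * (Z0 ^ 2 * T0)‖ ≤ r) (h5 : ‖c0‖ ≤ cc) (h6 : ‖Z0‖ ≤ zu) (h7 : ‖T0‖ ≤ tu)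
    (h8 : zl + eZ ≤ ‖Z0‖) (h9 : tl + eT ≤ ‖T0‖) (hzl : 0 < zl) (htl : 0 < tl) (he : 0 ≤ e)
    (h10 : eD + r + cc * (eZ * (2 * zu + eZ) * (tu + eT) + zu ^ 2 * eT) ≤ e * (zl ^ 2 * tl)) :
    ‖D / (Z ^ 2 * T) - c0‖ ≤ e := by
  have heZ : 0 ≤ eZ := (norm_nonneg _).trans h2
  have heT : 0 ≤ eT := (norm_nonneg _).trans h3
  have hcc : 0 ≤ cc := (norm_nonneg _).trans h5
  have hzu : 0 ≤ zu := (norm_nonneg _).trans h6
  have htu : 0 ≤ tu := (norm_nonneg _).trans h7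
  have hZ : zl ≤ ‖Z‖ := by
    have := norm_sub_norm_le Z0 Z
    rw [norm_sub_rev] at this
    linarith
  have hT : tl ≤ ‖T‖ := by
    have := norm_sub_norm_le T0 T
    rw [norm_sub_rev] at this
    linarith
  have hTu : ‖T‖ ≤ tu + eT := by
    have := norm_sub_norm_le T T0
    linarith
  have hZu : ‖Z + Z0‖ ≤ 2 * zu + eZ := by
    have e1 : Z + Z0 = (Z - Z0) + (Z0 + Z0) := by ring
    rw [e1]
    refine (norm_add_le _ _).trans ?_
    have := norm_add_le Z0 Z0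
    linarith
  have hZ0 : Z ≠ 0 := by
    intro h; rw [h, norm_zero] at hZ; linarith
  have hT0 : T ≠ 0 := by
    intro h; rw [h, norm_zero] at hT; linarith
  have e1 : D / (Z ^ 2 * T) - c0 = (D - c0 * (Z ^ 2 * T)) / (Z ^ 2 * T) := by
    field_simp
  have e2 : D - c0 * (Z ^ 2 * T) = (D - G0) + (G0 - c0 * (Z0 ^ 2 * T0)) -
      c0 * ((Z - Z0) * (Z + Z0) * T + Z0 ^ 2 * (T - T0)) := by ring
  have h11 : ‖(Z - Z0) * (Z + Z0) * T + Z0 ^ 2 * (T - T0)‖ ≤
      eZ * (2 * zu + eZ) * (tu + eT) + zu ^ 2 * eT := by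
    refine (norm_add_le _ _).trans (add_le_add ?_ ?_)
    · rw [norm_mul, norm_mul]
      exact mul_le_mul (mul_le_mul h2 hZu (norm_nonneg _) heZ) hTu (norm_nonneg _)
        (by positivity)
    · rw [norm_mul, norm_pow]
      exact mul_le_mul (pow_le_pow_left₀ (norm_nonneg _) h6 2) h3 (norm_nonneg _) (by positivity)
  have h12 : ‖D - c0 * (Z ^ 2 * T)‖ ≤
      eD + r + cc * (eZ * (2 * zu + eZ) * (tu + eT) + zu ^ 2 * eT) := by
    rw [e2]
    refine (norm_sub_le _ _).trans (add_le_add ((norm_add_le _ _).trans (add_le_add h1 h4)) ?_)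
    rw [norm_mul]
    exact mul_le_mul h5 h11 (norm_nonneg _) hcc
  have h13 : zl ^ 2 * tl ≤ ‖Z ^ 2 * T‖ := by
    rw [norm_mul, norm_pow]
    exact mul_le_mul (pow_le_pow_left₀ hzl.le hZ 2) hT htl.le (by positivity)
  rw [e1, norm_div, div_le_iff₀ (norm_pos_iff.2 (mul_ne_zero (pow_ne_zero 2 hZ0) hT0))]
  exact h12.trans (h10.trans (mul_le_mul_of_nonneg_left h13 he))

/-- `s_k log 2` -/
theorem ck_eq (k : ℕ) : ck k = Dirg (sk k) / ((riemannZeta (sk k)) ^ 2 *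
    ((Real.log 2 : ℝ) + ((2 * k + 1) * Real.pi : ℝ) * I)) := by
  unfold ck
  congr 1
  rw [mul_assoc]
  congr 1
  unfold sk om
  have h : (Real.log 2 : ℝ) ≠ 0 := (Real.log_pos (by norm_num)).ne'
  have h' : ((Real.log 2 : ℝ) : ℂ) ≠ 0 := Complex.ofReal_ne_zero.2 h
  push_cast
  field_simp

/-- approximations of `s_k log 2` -/
noncomputable def Tt (k : ℕ) : ℂ := ⟨0.693147, (2 * k + 1) * 3.1415925⟩

theorem T_bd (k : ℕ) (hk : k < 4) :
    ‖(((Real.log 2 : ℝ) : ℂ) + (((2 * k + 1) * Real.pi : ℝ) : ℂ) * I) - Tt k‖ ≤ 1 / 100000 := by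
  have h1 := Real.log_two_gt_d9
  have h2 := Real.log_two_lt_d9
  have h3 := Real.pi_gt_d6
  have h4 := Real.pi_lt_d6
  have hk' : (k : ℝ) ≤ 3 := by exact_mod_cast Nat.lt_succ_iff.1 hk
  have hk0 : (0 : ℝ) ≤ k := Nat.cast_nonneg k
  refine nle _ _ (by norm_num) ?_
  have e1 : ((((Real.log 2 : ℝ) : ℂ) + (((2 * k + 1) * Real.pi : ℝ) : ℂ) * I) - Tt k).re =
      Real.log 2 - 0.693147 := by
    simp only [Tt, Complex.sub_re, Complex.add_re, Complex.mul_re, Complex.ofReal_re,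
      Complex.ofReal_im, Complex.I_re, Complex.I_im]
    ring
  have e2 : ((((Real.log 2 : ℝ) : ℂ) + (((2 * k + 1) * Real.pi : ℝ) : ℂ) * I) - Tt k).im =
      (2 * k + 1) * (Real.pi - 3.1415925) := by
    simp only [Tt, Complex.sub_im, Complex.add_im, Complex.mul_im, Complex.ofReal_re,
      Complex.ofReal_im, Complex.I_re, Complex.I_im]
    ring
  rw [e1, e2]
  have h5 : |Real.log 2 - 0.693147| ≤ 1 / 1000000 := by
    rw [abs_le]; constructor <;> linarith
  have h6 : |(2 * (k : ℝ) + 1) * (Real.pi - 3.1415925)| ≤ 7 * (1 / 1000000) := by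
    rw [abs_mul, abs_of_nonneg (by positivity : (0 : ℝ) ≤ 2 * (k : ℝ) + 1)]
    refine mul_le_mul (by linarith) ?_ (abs_nonneg _) (by norm_num)
    rw [abs_le]; constructor <;> linarith
  have h7 := sq_le_sq' (abs_le.1 h5).1 (abs_le.1 h5).2
  have h8 := sq_le_sq' (abs_le.1 h6).1 (abs_le.1 h6).2
  nlinarith

/-- approximations of `c_k` -/
noncomputable def ct : ℕ → ℂ
  | 0 => ⟨258 / 100000, -19790 / 100000⟩
  | 1 => ⟨21605 / 100000, -3374 / 100000⟩
  | 2 => ⟨-590 / 100000, -2920 / 100000⟩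
  | 3 => ⟨-1985 / 100000, -4832 / 100000⟩
  | _ => 0

/-- their errors -/
noncomputable def ee : ℕ → ℝ
  | 0 => 82 / 10000
  | 1 => 91 / 10000
  | 2 => 8 / 10000
  | 3 => 15 / 10000
  | _ => 0

theorem ck_num (hZ : ∀ k < 4, ‖riemannZeta (sk k) - Zt k‖ ≤ 1 / 250)
    (hG : ∀ k < 4, ‖Dirg (sk k) - Gt k‖ ≤ 1 / 100) (k : ℕ) (hk : k < 4) :
    ‖ck k - ct k‖ ≤ ee k := by
  rw [ck_eq]
  interval_cases k
  · refine ck_bd _ _ _ (Gt 0) (Zt 0) (Tt 0) (ct 0) (1 / 100) (1 / 250) (1 / 100000) (2 / 100000)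
      (1980 / 10000) (7296 / 10000) (32172 / 10000) (7255 / 10000) (32171 / 10000) _
      (hG 0 (by norm_num)) (hZ 0 (by norm_num)) (T_bd 0 (by norm_num)) ?_ ?_ ?_ ?_ ?_ ?_
      (by norm_num) (by norm_num) (by norm_num [ee]) (by norm_num [ee])
    · refine nle _ _ (by norm_num) ?_
      simp only [Gt, ct, Zt, Tt, sq, Complex.sub_re, Complex.mul_re, Complex.sub_im, Complex.mul_im]
      norm_num
    · refine nle _ _ (by norm_num) ?_
      simp only [ct]; norm_num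
    · refine nle _ _ (by norm_num) ?_
      simp only [Zt]; norm_num
    · refine nle _ _ (by norm_num) ?_
      simp only [Tt]; norm_num
    · refine nge _ _ ?_
      simp only [Zt]; norm_num
    · refine nge _ _ ?_
      simp only [Tt]; norm_num
  · refine ck_bd _ _ _ (Gt 1) (Zt 1) (Tt 1) (ct 1) (1 / 100) (1 / 250) (1 / 100000) (2 / 100000)
      (2187 / 10000) (4588 / 10000) (94503 / 10000) (4546 / 10000) (94502 / 10000) _
      (hG 1 (by norm_num)) (hZ 1 (by norm_num)) (T_bd 1 (by norm_num)) ?_ ?_ ?_ ?_ ?_ ?_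
      (by norm_num) (by norm_num) (by norm_num [ee]) (by norm_num [ee])
    · refine nle _ _ (by norm_num) ?_
      simp only [Gt, ct, Zt, Tt, sq, Complex.sub_re, Complex.mul_re, Complex.sub_im, Complex.mul_im]
      norm_num
    · refine nle _ _ (by norm_num) ?_
      simp only [ct]; norm_num
    · refine nle _ _ (by norm_num) ?_
      simp only [Zt]; norm_num
    · refine nle _ _ (by norm_num) ?_
      simp only [Tt]; norm_num
    · refine nge _ _ ?_
      simp only [Zt]; norm_num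
    · refine nge _ _ ?_
      simp only [Tt]; norm_num
  · refine ck_bd _ _ _ (Gt 2) (Zt 2) (Tt 2) (ct 2) (1 / 100) (1 / 250) (1 / 100000) (1 / 10000)
      (298 / 10000) (10788 / 10000) (157233 / 10000) (10747 / 10000) (157232 / 10000) _
      (hG 2 (by norm_num)) (hZ 2 (by norm_num)) (T_bd 2 (by norm_num)) ?_ ?_ ?_ ?_ ?_ ?_
      (by norm_num) (by norm_num) (by norm_num [ee]) (by norm_num [ee])
    · refine nle _ _ (by norm_num) ?_
      simp only [Gt, ct, Zt, Tt, sq, Complex.sub_re, Complex.mul_re, Complex.sub_im, Complex.mul_im]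
      norm_num
    · refine nle _ _ (by norm_num) ?_
      simp only [ct]; norm_num
    · refine nle _ _ (by norm_num) ?_
      simp only [Zt]; norm_num
    · refine nle _ _ (by norm_num) ?_
      simp only [Tt]; norm_num
    · refine nge _ _ ?_
      simp only [Zt]; norm_num
    · refine nge _ _ ?_
      simp only [Tt]; norm_num
  · refine ck_bd _ _ _ (Gt 3) (Zt 3) (Tt 3) (ct 3) (1 / 100) (1 / 250) (1 / 100000) (6 / 100000)
      (523 / 10000) (7260 / 10000) (220021 / 10000) (7219 / 10000) (220020 / 10000) _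
      (hG 3 (by norm_num)) (hZ 3 (by norm_num)) (T_bd 3 (by norm_num)) ?_ ?_ ?_ ?_ ?_ ?_
      (by norm_num) (by norm_num) (by norm_num [ee]) (by norm_num [ee])
    · refine nle _ _ (by norm_num) ?_
      simp only [Gt, ct, Zt, Tt, sq, Complex.sub_re, Complex.mul_re, Complex.sub_im, Complex.mul_im]
      norm_num
    · refine nle _ _ (by norm_num) ?_
      simp only [ct]; norm_num
    · refine nle _ _ (by norm_num) ?_
      simp only [Zt]; norm_num
    · refine nle _ _ (by norm_num) ?_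
      simp only [Tt]; norm_num
    · refine nge _ _ ?_
      simp only [Zt]; norm_num
    · refine nge _ _ ?_
      simp only [Tt]; norm_num

/-- the test vectors -/
noncomputable def vv : ℕ → ℂ
  | 0 => ⟨6, 7⟩
  | 1 => ⟨5, -12⟩
  | 2 => ⟨-9, 2⟩
  | 3 => ⟨6, 5⟩
  | _ => 0

/-- the test vectors -/
noncomputable def wv : ℕ → ℂ
  | 0 => ⟨4, 7⟩
  | 1 => ⟨-9, -1⟩
  | 2 => ⟨9, -9⟩
  | 3 => ⟨3, 9⟩
  | _ => 0

noncomputable def vn : ℕ → ℝ
  | 0 => 922 / 100
  | 1 => 13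
  | 2 => 922 / 100
  | 3 => 782 / 100
  | _ => 0

noncomputable def wn : ℕ → ℝ
  | 0 => 807 / 100
  | 1 => 906 / 100
  | 2 => 1273 / 100
  | 3 => 949 / 100
  | _ => 0

theorem vn_bd (i : ℕ) (hi : i < 4) : ‖vv i‖ ≤ vn i := by
  interval_cases i
  all_goals
    refine nle _ _ (by norm_num [vn]) ?_
    simp only [vv, vn]
    norm_num

theorem wn_bd (i : ℕ) (hi : i < 4) : ‖wv i‖ ≤ wn i := by
  interval_cases i
  all_goals
    refine nle _ _ (by norm_num [wn]) ?_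
    simp only [wv, wn]
    norm_num

/-- errors of `Fh` -/
noncomputable def Eh (i j : ℕ) : ℝ := if j ≤ i then ee (i - j) else ee (j - i - 1)

theorem Fh_bd (h : ∀ k < 4, ‖ck k - ct k‖ ≤ ee k) (i j : ℕ) (hi : i < 4) (hj : j < 4) :
    ‖Fh ck i j - Fh ct i j‖ ≤ Eh i j := by
  unfold Fh Eh
  split_ifs with hij
  · exact h _ (by omega)
  · rw [← map_sub, RCLike.norm_conj]
    exact h _ (by omega)

/-- **Task Fin.** -/
theorem taskFin : TaskFin := by
  intro hZ hG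
  have hck := ck_num hZ hG
  refine ⟨vv, wv, ?_⟩
  have hv : √(∑ i ∈ range 4, ‖vv i‖ ^ 2) = 20 := by
    have : ∑ i ∈ range 4, ‖vv i‖ ^ 2 = 20 ^ 2 := by
      simp only [Finset.sum_range_succ, Finset.sum_range_zero, Complex.sq_norm,
        Complex.normSq_apply, vv]
      norm_num
    rw [this, Real.sqrt_sq (by norm_num)]
  have hw : √(∑ i ∈ range 4, ‖wv i‖ ^ 2) ≤ 19.98 := by
    have : ∑ i ∈ range 4, ‖wv i‖ ^ 2 = 399 := by
      simp only [Finset.sum_range_succ, Finset.sum_range_zero, Complex.sq_norm,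
        Complex.normSq_apply, wv]
      norm_num
    rw [this, Real.sqrt_le_left (by norm_num)]
    norm_num
  have hS0 : (236 : ℝ) ≤ ‖∑ i ∈ range 4, ∑ j ∈ range 4, vv i * wv j * Fh ct i j‖ := by
    refine nge _ _ ?_
    have e1 : (∑ i ∈ range 4, ∑ j ∈ range 4, vv i * wv j * Fh ct i j).re ≥ 236 := by
      simp only [Finset.sum_range_succ, Finset.sum_range_zero, Fh, vv, wv, ct]
      norm_num [Complex.add_re, Complex.mul_re, Complex.mul_im, ct]
    nlinarith [sq_nonneg (∑ i ∈ range 4, ∑ j ∈ range 4, vv i * wv j * Fh ct i j).im]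
  have hdiff : ‖∑ i ∈ range 4, ∑ j ∈ range 4, vv i * wv j * (Fh ck i j - Fh ct i j)‖ ≤ 12 := by
    have h1 : ‖∑ i ∈ range 4, ∑ j ∈ range 4, vv i * wv j * (Fh ck i j - Fh ct i j)‖ ≤
        ∑ i ∈ range 4, ∑ j ∈ range 4, vn i * wn j * Eh i j := by
      refine (norm_sum_le _ _).trans (Finset.sum_le_sum fun i hi => ?_)
      refine (norm_sum_le _ _).trans (Finset.sum_le_sum fun j hj => ?_)
      have hi' := Finset.mem_range.1 hi
      have hj' := Finset.mem_range.1 hj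
      rw [norm_mul, norm_mul]
      have hv' := vn_bd i hi'
      have hw' := wn_bd j hj'
      exact mul_le_mul (mul_le_mul hv' hw' (norm_nonneg _) ((norm_nonneg _).trans hv'))
        (Fh_bd hck i j hi' hj') (norm_nonneg _)
        (mul_nonneg ((norm_nonneg _).trans hv') ((norm_nonneg _).trans hw'))
    refine h1.trans ?_
    simp only [Finset.sum_range_succ, Finset.sum_range_zero, Eh, vn, wn]
    norm_num [ee]
  have hsum : ∑ i ∈ range 4, ∑ j ∈ range 4, vv i * wv j * Fh ck i j =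
      (∑ i ∈ range 4, ∑ j ∈ range 4, vv i * wv j * Fh ct i j) +
        ∑ i ∈ range 4, ∑ j ∈ range 4, vv i * wv j * (Fh ck i j - Fh ct i j) := by
    rw [← Finset.sum_add_distrib]
    refine Finset.sum_congr rfl fun i _ => ?_
    rw [← Finset.sum_add_distrib]
    refine Finset.sum_congr rfl fun j _ => ?_
    ring
  have hfin : (236 : ℝ) - 12 ≤ ‖∑ i ∈ range 4, ∑ j ∈ range 4, vv i * wv j * Fh ck i j‖ := by
    rw [hsum]
    have := norm_sub_le
      ((∑ i ∈ range 4, ∑ j ∈ range 4, vv i * wv j * Fh ct i j) +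
        ∑ i ∈ range 4, ∑ j ∈ range 4, vv i * wv j * (Fh ck i j - Fh ct i j))
      (∑ i ∈ range 4, ∑ j ∈ range 4, vv i * wv j * (Fh ck i j - Fh ct i j))
    rw [add_sub_cancel_right] at this
    linarith
  rw [hv]
  calc (11 / 20 : ℝ) * 20 * √(∑ j ∈ range 4, ‖wv j‖ ^ 2) ≤ 11 / 20 * 20 * 19.98 := by
        exact mul_le_mul_of_nonneg_left hw (by norm_num)
    _ < 236 - 12 := by norm_num
    _ ≤ _ := hfin

end Pool.Agent.H265R3.W
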